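import Pool.Agent.Helper5.SX.St

set_option autoImplicit false

namespace Pool.Agent.Helper60.SX

open _root_.SX
open Finset
open scoped Classical

theorem hSIW : StBFB → StCZ → StCLA → StCLC → StSIW := by
  intro hBFB hCZ hCLA hCLC V _ A c y l t0 t1 C L hF
  have hmax := hF.st.mx
  have hst := hmax.st
  have hl := (hCZ V A c y l hmax).1
  obtain ⟨_, _, _, hKM, _⟩ := hBFB V A c y l hst hl
  have hLB : ∀ B ∈ G2 A c y l t0 t1 L, ∀ x ∈ L B, A.b x = B ∧
      ∃ m ∈ KM A c y l, x ∈ A.N m \ Us A c y l m := by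
    intro B hB x hx
    rw [G2, mem_filter] at hB
    obtain ⟨hG, hTy⟩ := hB
    have hxC : x ∈ C B := (hF.free B hG).sub hx
    have hxR : x ∈ Rp A c y l t0 B := (hF.comp B hG).sub hxC
    have hxb : A.b x = B := by
      rw [Rp, mem_filter, Rb, mem_filter] at hxR
      exact hxR.1.2.1
    refine ⟨hxb, ?_⟩
    have hne := hCLA V A c y l t0 t1 C L hF B hG x hxC
    have hnt := hCLC V A c y l t0 t1 C L hF B hG x hx
    have h1 : ∃ m ∈ Kn A c y l x, ¬ ∃ v ∈ Und A c y l (A.b m), c v = c x := by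
      by_contra hcon
      push Not at hcon
      exact hnt ⟨hne, fun m hm => ⟨hTy x hx m hm, by
        obtain ⟨v, hv1, hv2⟩ := hcon m hm
        exact ⟨v, hv1, hv2⟩⟩⟩
    obtain ⟨m, hm, hmv⟩ := h1
    have hmK := hm
    rw [Kn, mem_filter] at hmK
    refine ⟨m, ?_, ?_⟩
    · rw [KM, mem_filter]
      exact ⟨hmK.2, hTy x hx m hm⟩
    · rw [mem_sdiff, Us, mem_filter]
      exact ⟨A.symm x m hmK.1, fun h => hmv h.2⟩
  have h1 : ∑ B ∈ G2 A c y l t0 t1 L, (L B).card = ((G2 A c y l t0 t1 L).biUnion L).card := by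
    rw [card_biUnion]
    intro B hB B' hB' hne
    change Disjoint (L B) (L B')
    rw [Finset.disjoint_left]
    intro x hx hx'
    exact hne ((hLB B hB x hx).1.symm.trans (hLB B' hB' x hx').1)
  have h2 : (G2 A c y l t0 t1 L).biUnion L ⊆
      (KM A c y l).biUnion fun m => A.N m \ Us A c y l m := by
    intro x hx
    rw [mem_biUnion] at hx ⊢
    obtain ⟨B, hB, hxB⟩ := hx
    exact (hLB B hB x hxB).2
  have h3 : ((G2 A c y l t0 t1 L).biUnion L).card ≤
      ∑ m ∈ KM A c y l, (A.N m \ Us A c y l m).card :=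
    (card_le_card h2).trans card_biUnion_le
  rw [h1]
  calc ∑ m ∈ KM A c y l, (Us A c y l m).card + ((G2 A c y l t0 t1 L).biUnion L).card
      ≤ ∑ m ∈ KM A c y l, (Us A c y l m).card + ∑ m ∈ KM A c y l, (A.N m \ Us A c y l m).card := by
        omega
    _ = ∑ m ∈ KM A c y l, ((Us A c y l m).card + (A.N m \ Us A c y l m).card) := by
        rw [sum_add_distrib]
    _ ≤ ∑ m ∈ KM A c y l, A.D := by
        apply sum_le_sum
        intro m _
        have hs : Us A c y l m ⊆ A.N m := by
          rw [Us]; exact filter_subset _ _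
        have := card_sdiff_add_card_eq_card hs
        have := A.deg m
        omega
    _ = A.D * (Sb A c y l).card := by
        rw [sum_const, smul_eq_mul, hKM, mul_comm]

end Pool.Agent.Helper60.SX
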